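import Pool.Agent.V11281.Snf.Count

/-!
# `snf`-countability of the levels of free abelian topological groups
-/

set_option autoImplicit false

open Set Topology Filter
open Pool.Agent.V11281.Snf

namespace Pool.Agent.Results.MP_59a37c_gt.SnfLevels

universe u

/-- Let `X` be a Tychonoff `k`-space with a regular `G_δ`-diagonal.  If `A_M(X)` is
`snf`-countable for some `M ≥ 2` (for instance `M = 4`), then every `A_n(X)` is
`snf`-countable. -/
theorem result (X : Type u) [TopologicalSpace X] [T35Space X] (hk : IsKSpace X)
    (hD : RegularGdeltaDiagonal X) :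
    (SnfCountable (An X 4) → ∀ n : ℕ, SnfCountable (An X n)) ∧
      (SnfCountable (An X 2) → ∀ n : ℕ, SnfCountable (An X n)) :=
  ⟨fun h n => snf_An (seqB_of_kSpace hk hD) (by norm_num) h n,
    fun h n => snf_An (seqB_of_kSpace hk hD) le_rfl h n⟩

end Pool.Agent.Results.MP_59a37c_gt.SnfLevels
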